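import Pool.Agent.Helper87.Sep.Proof

set_option autoImplicit false

namespace Pool.Agent.Results.MP_1db03b_co.SeparationNotComplete

open Pool.Agent.Helper87.Sep

/-- The separation-size generating function `G_T` is not a complete invariant of rooted trees:
there are two non-isomorphic rooted trees with the same `G`. -/
theorem result : ∃ T T' : FinRootedTree, ¬ Isomorphic T T' ∧ G T = G T' := separation_not_complete

end Pool.Agent.Results.MP_1db03b_co.SeparationNotComplete
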